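import Pool.Agent.helper90.FL.Spec

/-! # Row POS of the project FL (MP_fe76a7_co) -/

set_option autoImplicit false

namespace Pool.Agent.helper90.FL

open Finset Polynomial
open scoped Classical

theorem POS_mem {V E : Type} {s t : E → V} {A : Finset E} {S : Set V} {e : E} :
    e ∈ cut s t A S ↔ e ∈ A ∧ ¬ (s e ∈ S ↔ t e ∈ S) := by
  unfold cut
  exact Finset.mem_filter

/-- Removing edges which are not separated does not change the cut. -/
theorem POS_cut {V E : Type} {s t : E → V} {A A' : Finset E} {S : Set V} (hA : A' ⊆ A)
    (h : ∀ e ∈ A, e ∉ A' → (s e ∈ S ↔ t e ∈ S)) : cut s t A' S = cut s t A S := by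
  ext e
  rw [POS_mem, POS_mem]
  constructor
  · rintro ⟨h1, h2⟩
    exact ⟨hA h1, h2⟩
  · rintro ⟨h1, h2⟩
    refine ⟨?_, h2⟩
    by_contra h3
    exact h2 (h e h1 h3)

theorem POS (h : CIR_stmt) : POS_stmt := by
  intro V E s t hR w hSC x hwx hx
  have main : ∀ n : ℕ, ∀ A B : Finset E, #A ≤ n → 0 ≤ Pv s t A B x ∧
      ((∀ S, Cl s t B S → (cut s t A S).card ≠ 1) → 0 < Pv s t A B x) := by
    intro n
    induction n with
    | zero =>
      intro A B hA
      have hA0 : A = ∅ := card_eq_zero.1 (Nat.le_zero.1 hA)
      rw [hA0, hR.emp]
      exact ⟨zero_le_one, fun _ => one_pos⟩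
    | succ n ih =>
      intro A B hA
      by_cases h1 : ∃ S, Cl s t B S ∧ (cut s t A S).card = 1
      · obtain ⟨S, hS, hc⟩ := h1
        obtain ⟨e, he⟩ := card_eq_one.1 hc
        rw [hR.cut0 A B S e x hS he]
        exact ⟨le_rfl, fun h' => absurd hc (h' S hS)⟩
      · have hno : ∀ S, Cl s t B S → (cut s t A S).card ≠ 1 := fun S hS hc => h1 ⟨S, hS, hc⟩
        suffices hpos : 0 < Pv s t A B x from ⟨hpos.le, fun _ => hpos⟩
        rcases A.eq_empty_or_nonempty with hA0 | hAne
        · rw [hA0, hR.emp]
          exact one_pos
        by_cases hl : ∃ e ∈ A, Lp s t B e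
        · obtain ⟨e, he, hle⟩ := hl
          rw [hR.loop A B e x he hle]
          refine mul_pos (by linarith) ((ih (A.erase e) B ?_).2 ?_)
          · rw [card_erase_of_mem he]
            omega
          · intro S hS
            rw [POS_cut (A := A) (erase_subset e A)]
            · exact hno S hS
            · intro e' he' hne
              have : e' = e := by
                by_contra hcon
                exact hne (mem_erase.2 ⟨hcon, he'⟩)
              rw [this]
              exact hle S hS
        · by_cases h2 : ∃ S, Cl s t B S ∧ (cut s t A S).card = 2
          · obtain ⟨S, hS, hc⟩ := h2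
            obtain ⟨e, f, hef, hcut⟩ := card_eq_two.1 hc
            have hf : f ∈ cut s t A S := by rw [hcut]; simp
            obtain ⟨hfA, hfS⟩ := POS_mem.1 hf
            have hfl : ¬ Lp s t B f := fun hcon => hfS (hcon S hS)
            have hz : Pv s t (A.erase f) B x = 0 := by
              refine hR.cut0 _ B S e x hS ?_
              ext e'
              have hmem : e' ∈ cut s t A S ↔ e' = e ∨ e' = f := by
                rw [hcut, mem_insert, mem_singleton]
              rw [POS_mem] at hmem
              rw [POS_mem, mem_erase, mem_singleton]
              constructor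
              · rintro ⟨⟨a1, a2⟩, a3⟩
                exact (hmem.1 ⟨a2, a3⟩).resolve_right a1
              · intro a1
                have a2 := hmem.2 (Or.inl a1)
                exact ⟨⟨fun a3 => hef (a1.symm.trans a3), a2.1⟩, a2.2⟩
            rw [hR.nonloop A B f x hfA hfl, hz, sub_zero]
            refine (ih (A.erase f) (insert f B) ?_).2 ?_
            · rw [card_erase_of_mem hfA]
              omega
            · intro S' hS'
              have hS'B : Cl s t B S' := fun e' he' => hS' e' (mem_insert_of_mem he')
              rw [POS_cut (A := A) (erase_subset f A)]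
              · exact hno S' hS'B
              · intro e' he' hne
                have : e' = f := by
                  by_contra hcon
                  exact hne (mem_erase.2 ⟨hcon, he'⟩)
                rw [this]
                exact hS' f (mem_insert_self f B)
          · obtain ⟨C, hCA, hC, hCw⟩ := hSC A B hAne (fun e he hcon => hl ⟨e, he, hcon⟩)
              (fun S hS => ⟨hno S hS, fun hc => h2 ⟨S, hS, hc⟩⟩)
            have hcir := h V E s t hR x n (fun A' B' hA' => (ih A' B' hA').1) C A B hCA hA hC
            have hpos : 0 < Pv s t (A \ C) (B ∪ C) x := by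
              refine (ih (A \ C) (B ∪ C) ?_).2 ?_
              · have e1 := card_sdiff_add_card_eq_card hCA
                have e2 : 0 < #C := card_pos.2 hC.1
                omega
              · intro S' hS'
                have hS'B : Cl s t B S' := fun e' he' => hS' e' (mem_union_left _ he')
                rw [POS_cut (A := A) sdiff_subset]
                · exact hno S' hS'B
                · intro e' he' hne
                  have : e' ∈ C := by
                    by_contra hcon
                    exact hne (mem_sdiff.2 ⟨he', hcon⟩)
                  exact hS' e' (mem_union_right _ this)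
            have hCx : (0 : ℝ) < x - #C := by
              have : (#C : ℝ) ≤ w := by exact_mod_cast hCw
              linarith
            exact lt_of_lt_of_le (mul_pos hCx hpos) hcir
  intro A B
  exact main #A A B le_rfl

end Pool.Agent.helper90.FL
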