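import Pool.Agent.helper90.FL.Spec

/-! # Row REL of the project FL (MP_fe76a7_co) -/

set_option autoImplicit false

namespace Pool.Agent.helper90.FL

open Finset Polynomial
open scoped Classical

theorem REL_key (F G : ℤ[X]) (h : ∀ q : ℕ, 1 ≤ q → F.eval (q : ℤ) = G.eval (q : ℤ)) : F = G := by
  apply Polynomial.eq_of_infinite_eval_eq
  refine Set.infinite_of_injective_forall_mem (f := fun n : ℕ => ((n + 1 : ℕ) : ℤ)) ?_ ?_
  · intro a b hab
    simp only [Nat.cast_inj] at hab
    omega
  · intro n
    exact h (n + 1) (by omega)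

theorem REL (h0 : CN0_stmt) (h1 : CN1_stmt) (h2 : CN2_stmt) (h4 : CN4_stmt) (h : POL_stmt) :
    REL_stmt := by
  intro V E _ _ s t
  have hP : ∀ A B, Pol s t A B (PF s t A B) := by
    intro A B
    have hex := h V E s t A B
    unfold PF
    rw [dif_pos hex]
    exact hex.choose_spec
  refine ⟨?_, ?_, ?_, ?_, ?_⟩
  · intro B x
    have e1 : PF s t ∅ B = 1 := by
      refine REL_key _ _ fun q hq => ?_
      rw [hP ∅ B q hq, h0 V E s t q B, eval_one]
      rfl
    unfold Pv
    rw [e1, map_one]
  · intro A B e x he hl
    have e1 : PF s t A B = (X - 1) * PF s t (A.erase e) B := by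
      refine REL_key _ _ fun q hq => ?_
      rw [hP A B q hq, h1 V E s t q A B e hq he hl, eval_mul, hP _ B q hq, eval_sub, eval_X,
        eval_one]
      push_cast [Nat.cast_sub hq]
      ring
    unfold Pv
    rw [e1, map_mul, map_sub, aeval_X, map_one]
  · intro A B e x he hl
    have e1 : PF s t A B = PF s t (A.erase e) (insert e B) - PF s t (A.erase e) B := by
      refine REL_key _ _ fun q hq => ?_
      rw [hP A B q hq, eval_sub, hP _ _ q hq, hP _ B q hq, ← h2 V E s t q A B e hq he hl]
      push_cast
      ring
    unfold Pv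
    rw [e1, map_sub]
  · intro A B B' x hcl
    have e0 : ∀ q, N s t q A B = N s t q A B' := by
      intro q
      have : IsF s t q A B = IsF s t q A B' := by
        funext f
        apply propext
        unfold IsF
        constructor
        · rintro ⟨a1, a2⟩
          exact ⟨a1, fun S hS => a2 S ((hcl S).2 hS)⟩
        · rintro ⟨a1, a2⟩
          exact ⟨a1, fun S hS => a2 S ((hcl S).1 hS)⟩
      unfold N
      rw [this]
    have e1 : PF s t A B = PF s t A B' := by
      refine REL_key _ _ fun q hq => ?_
      rw [hP A B q hq, hP A B' q hq, e0]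
    unfold Pv
    rw [e1]
  · intro A B S e x hS hc
    have e1 : PF s t A B = 0 := by
      refine REL_key _ _ fun q hq => ?_
      rw [hP A B q hq, h4 V E s t q A B S e hq hS hc, eval_zero]
      rfl
    unfold Pv
    rw [e1, map_zero]

end Pool.Agent.helper90.FL
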